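import Pool.Agent.TH708.Tsp.Words

/-!
# The lower bound for a context-free language
-/

set_option autoImplicit false
set_option linter.unusedSectionVars false

namespace Pool.Agent.TH708.Tsp.W

open Pool.Agent.H561R2.CF

variable {l h : ℕ}

open Finset in
open Classical in
theorem lowerT (l h k : ℕ) : ∃ F : Finset (Fin (tt l h k).length → Lt), F.Nonempty ∧
    (∀ w ∈ F, List.ofFn w ∈ mach.language) ∧
    ∀ (S b h₀ a : ℕ) (B : NBP (tt l h k).length Lt S), B.Width b → b < 3 ^ h₀ → h₀ ≤ h → 4 ≤ a →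
      2 * a ≤ l → (∀ v, (dup B v).ncard ≤ 2 ^ (l - a)) →
      (∀ w, B.Accepts w → List.ofFn w ∈ mach.language) →
      (F.filter fun w => B.Accepts w).card * 2 ^ ((a - 4) * (h + 1 - h₀)) ≤ 4 * S * F.card := by
  have huniq : Uniq (tt l h k) := uniq_of_nodup _ (by
    rw [vars_tt]
    exact nodup_tmpl h id Function.injective_id)
  have hex : ∀ x : Nd h × Row l, ∃ i : Fin (tt l h k).length, (tt l h k).get i = Sum.inr x := by
    intro x
    have h1 : Sum.inr x ∈ tt l h k := by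
      rw [← mem_vars, vars_tt, mem_vars_tmpl]
      exact ⟨x.1, rfl⟩
    exact List.mem_iff_get.1 h1
  choose pos hpos using hex
  have hpos' : ∀ (i : Fin (tt l h k).length) (x), (tt l h k).get i = Sum.inr x → i = pos x := by
    intro i x hi
    have e1 : (tt l h k)[(i : ℕ)]? = some (Sum.inr x) := by
      rw [← hi]
      simp
    have e2 : (tt l h k)[(pos x : ℕ)]? = some (Sum.inr x) := by
      rw [← hpos x]
      simp
    exact Fin.ext (huniq _ _ _ e1 e2)
  let w : (Nd h × Row l → Bool) → Fin (tt l h k).length → Lt :=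
    fun F i => eval F ((tt l h k).get i)
  have hw : ∀ F, List.ofFn (w F) = pre l k ++ word h fun u r => F (u, r) := by
    intro F
    rw [← map_tt]
    have : w F = eval F ∘ (tt l h k).get := rfl
    rw [this, ← List.map_ofFn, List.ofFn_get]
  have hacc : ∀ F : Nd h × Row l → Bool, List.ofFn (w F) ∈ mach.language ↔
      ∃ z : Nd h → Vec l, Good z ∧ ∀ u r, F (u, r) = decide (r = (pv h 0 z u, z u)) := by
    intro F
    rw [hw, mem_language]
    constructor
    · rintro ⟨z, hz⟩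
      obtain ⟨-, h1, h2⟩ := (rep_iff h _ _ _).1 hz
      exact ⟨z, h1, h2⟩
    · rintro ⟨z, h1, h2⟩
      exact ⟨z, (rep_iff h _ _ _).2 ⟨zero_dotProduct _, h1, h2⟩⟩
  let Fz : (Nd h → Vec l) → Nd h × Row l → Bool := fun z x =>
    decide (x.2 = (pv h 0 z x.1, z x.1))
  let key : (Nd h → Vec l) → Nd h → Fin (tt l h k).length := fun z u =>
    pos (u, (pv h 0 z u, z u))
  have hinj : ∀ x y, pos x = pos y → x = y := by
    intro x y hxy
    have h1 := hpos x
    rw [hxy, hpos y] at h1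
    exact (Sum.inr.inj h1).symm
  have hwinj : ∀ z z' : Nd h → Vec l, w (Fz z) = w (Fz z') → z = z' := by
    intro z z' hzz
    funext u
    have h1 := congrFun hzz (pos (u, (pv h 0 z u, z u)))
    have h2 : eval (Fz z) ((tt l h k).get (pos (u, (pv h 0 z u, z u)))) =
      eval (Fz z') ((tt l h k).get (pos (u, (pv h 0 z u, z u)))) := h1
    rw [hpos] at h2
    have h3 : flag (Fz z (u, (pv h 0 z u, z u))) = flag (Fz z' (u, (pv h 0 z u, z u))) := h2
    have h4 : Fz z (u, (pv h 0 z u, z u)) = true := decide_eq_true rfl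
    rw [h4] at h3
    have h5 : Fz z' (u, (pv h 0 z u, z u)) = true := by
      cases hc : Fz z' (u, (pv h 0 z u, z u)) with
      | true => rfl
      | false =>
        rw [hc] at h3
        exact absurd h3 (by decide)
    exact (Prod.mk.inj (decide_eq_true_iff.1 h5)).2
  refine ⟨(univ.filter fun z : Nd h → Vec l => Good z).image fun z => w (Fz z), ?_, ?_, ?_⟩
  · refine ⟨w (Fz fun _ => 0), Finset.mem_image_of_mem _ ?_⟩
    rw [Finset.mem_filter]
    exact ⟨Finset.mem_univ _, fun p c _ => zero_dotProduct _⟩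
  · intro v hv
    obtain ⟨z, hz, rfl⟩ := Finset.mem_image.1 hv
    rw [Finset.mem_filter] at hz
    rw [hacc]
    exact ⟨z, hz.2, fun u r => rfl⟩
  intro S b h₀ a B hwd hb hh ha hal hdup hL
  have key2 := lower_bound (l := l) hwd hb hh ha hal hdup (fun z => w (Fz z)) key ?_ ?_ ?_ ?_
  · have e1 : ((univ.filter fun z : Nd h → Vec l => Good z).image fun z => w (Fz z)).card =
        (univ.filter fun z : Nd h → Vec l => Good z).card :=
      Finset.card_image_of_injective _ fun z z' hzz => hwinj z z' hzz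
    have e2 : (((univ.filter fun z : Nd h → Vec l => Good z).image fun z => w (Fz z)).filter
        fun w => B.Accepts w).card =
        (univ.filter fun z : Nd h → Vec l => Good z ∧ B.Accepts (w (Fz z))).card := by
      rw [Finset.filter_image, Finset.card_image_of_injective _ fun z z' hzz => hwinj z z' hzz,
        Finset.filter_filter]
    rw [e1, e2]
    exact key2
  · intro z hz u
    refine ⟨w fun x => if x = (u, (pv h 0 z u, z u)) then false else Fz z x, ?_, ?_⟩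
    · intro i hi
      show eval _ _ = eval _ _
      cases hg : (tt l h k).get i with
      | inl c => rfl
      | inr x =>
        show flag (Fz z x) = flag (if x = (u, (pv h 0 z u, z u)) then false else Fz z x)
        rw [if_neg]
        intro hx
        subst hx
        exact hi (hpos' _ _ hg)
    · intro hcon
      obtain ⟨z', -, h2⟩ := (hacc _).1 (hL _ hcon)
      have h3 := h2 u (pv h 0 z' u, z' u)
      simp only [decide_true] at h3
      split_ifs at h3 with h4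
      rw [decide_eq_true_iff] at h3
      simp only at h3
      exact h4 (Prod.ext rfl h3)
  · intro z z' hz hz' A _ hAcc
    have hmix : (fun i => if i ∈ A then w (Fz z) i else w (Fz z') i) =
        w fun x => if pos x ∈ A then Fz z x else Fz z' x := by
      funext i
      show (if i ∈ A then eval _ _ else eval _ _) = eval _ _
      cases hg : (tt l h k).get i with
      | inl c => split_ifs <;> rfl
      | inr x =>
        have hi := hpos' _ _ hg
        show (if i ∈ A then flag (Fz z x) else flag (Fz z' x)) =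
          flag (if pos x ∈ A then Fz z x else Fz z' x)
        rw [← hi]
        split_ifs <;> rfl
    rw [hmix] at hAcc
    obtain ⟨z'', hz'', h2⟩ := (hacc _).1 (hL _ hAcc)
    refine ⟨z'', hz'', fun u => ?_⟩
    have h3 := h2 u (pv h 0 z'' u, z'' u)
    simp only [decide_true] at h3
    by_cases hA : pos (u, (pv h 0 z'' u, z'' u)) ∈ A
    · left
      rw [if_pos hA] at h3
      have h5 : (pv h 0 z'' u, z'' u) = (pv h 0 z u, z u) := decide_eq_true_iff.1 h3
      refine ⟨hA, ?_⟩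
      show pos _ = pos _
      rw [h5]
    · right
      rw [if_neg hA] at h3
      have h5 : (pv h 0 z'' u, z'' u) = (pv h 0 z' u, z' u) := decide_eq_true_iff.1 h3
      refine ⟨hA, ?_⟩
      show pos _ = pos _
      rw [h5]
  · intro z z' i hi
    show eval _ _ = eval _ _
    cases hg : (tt l h k).get i with
    | inl c => rfl
    | inr x =>
      have hx := hpos' _ _ hg
      show flag (Fz z x) = flag (Fz z' x)
      congr 1
      have hz : ∀ z : Nd h → Vec l, (∃ u, key z u = i) ↔ x.2 = (pv h 0 z x.1, z x.1) := by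
        intro z
        rw [hx]
        constructor
        · rintro ⟨u, hu⟩
          have h1 := hinj _ _ hu
          rw [← h1]
        · intro h1
          refine ⟨x.1, ?_⟩
          show pos _ = pos _
          rw [← h1]
      rw [hz, hz] at hi
      exact decide_eq_decide.2 hi
  · intro z z' u u' huv
    have h1 := hinj _ _ huv
    exact ⟨(Prod.mk.inj h1).1, (Prod.mk.inj (Prod.mk.inj h1).2).2⟩

open Classical in
theorem lowerN {n : ℕ} (hl : 1 ≤ l)
    (hn : l + 3 + 2 * 3 ^ h * (2 ^ l * 2 ^ l * (4 * l + 1) + 2) ≤ n) :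
    ∃ F : Finset (Fin n → Lt), F.Nonempty ∧ (∀ w ∈ F, List.ofFn w ∈ mach.language) ∧
    ∀ (S b h₀ a : ℕ) (B : NBP n Lt S), B.Width b → b < 3 ^ h₀ → h₀ ≤ h → 4 ≤ a →
      2 * a ≤ l → (∀ v, (dup B v).ncard ≤ 2 ^ (l - a)) →
      (∀ w, B.Accepts w → List.ofFn w ∈ mach.language) →
      (F.filter fun w => B.Accepts w).card * 2 ^ ((a - 4) * (h + 1 - h₀)) ≤ 4 * S * F.card := by
  obtain ⟨k, hk⟩ := exists_pad hl hn
  subst hk
  exact lowerT l h k

theorem num1 {k n b m : ℕ} (hk : 1 ≤ k) (hn : 1728 * k ^ 2 ≤ Nat.log 2 n) (hb : 1 ≤ b)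
    (hm : 1 ≤ m) (hbm : (b * m ^ 2) ^ k ≤ n ^ (k - 1)) :
    ∃ l a h₀ h : ℕ, 10 ≤ a ∧ 2 * a ≤ l ∧ m ≤ 2 ^ (l - a) ∧ b < 3 ^ h₀ ∧ h = h₀ + a ∧
      Nat.log 2 n < 8 * k * (a + 1) ∧
      l + 3 + 2 * 3 ^ h * (2 ^ l * 2 ^ l * (4 * l + 1) + 2) ≤ n := by
  set N := Nat.log 2 n with hN
  have hn0 : n ≠ 0 := by
    rintro rfl
    rw [hN] at hn
    simp only [Nat.log_zero_right] at hn
    have : 1 ≤ k ^ 2 := Nat.one_le_pow _ _ hk
    omega
  have hNn : 2 ^ N ≤ n := Nat.pow_log_le_self 2 hn0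
  have hnN : n < 2 ^ (N + 1) := Nat.lt_pow_succ_log_self (by norm_num) n
  obtain ⟨a, ha⟩ : ∃ a, a = N / (8 * k) := ⟨_, rfl⟩
  have h8 : 8 * k * a ≤ N := by rw [ha]; exact Nat.mul_div_le _ _
  have h9 : N < 8 * k * (a + 1) := by rw [ha]; exact Nat.lt_mul_div_succ _ (by omega)
  have ha216 : 216 * k ≤ a := by
    rw [ha, Nat.le_div_iff_mul_le (by omega)]
    calc 216 * k * (8 * k) = 1728 * k ^ 2 := by ring
      _ ≤ N := hn
  have ha10 : 10 ≤ a := by omega
  -- the product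
  have h1 : b * m ^ 2 * 2 ^ (8 * a) ≤ n := by
    have h2 : (b * m ^ 2 * 2 ^ (8 * a)) ^ k ≤ n ^ k := by
      calc (b * m ^ 2 * 2 ^ (8 * a)) ^ k = (b * m ^ 2) ^ k * 2 ^ (8 * k * a) := by
            rw [mul_pow, ← pow_mul]; congr 2; ring
        _ ≤ n ^ (k - 1) * n := Nat.mul_le_mul hbm
            ((Nat.pow_le_pow_right (by norm_num) h8).trans hNn)
        _ = n ^ k := by rw [← pow_succ]; congr 1; omega
    exact (Nat.pow_le_pow_iff_left (by omega)).1 h2
  set lam := Nat.clog 2 m with hlam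
  have hml : m ≤ 2 ^ lam := Nat.le_pow_clog (by norm_num) m
  have hlm : 2 ^ lam ≤ 2 * m := by
    rcases Nat.lt_or_ge m 2 with h2 | h2
    · have : m = 1 := by omega
      rw [hlam, this]; simp
    · have h3 : 2 ^ (lam - 1) < m := Nat.pow_pred_clog_lt_self (by norm_num) (by omega)
      have h4 : 1 ≤ lam := Nat.clog_pos (by norm_num) h2
      have h5 : 2 ^ lam = 2 * 2 ^ (lam - 1) := by rw [← pow_succ']; congr 1; omega
      omega
  obtain ⟨l, hl⟩ : ∃ l, l = max lam a + a := ⟨_, rfl⟩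
  have h4l : 4 ^ l ≤ m ^ 2 * 2 ^ (4 * a) := by
    have hm2 : 1 ≤ m ^ 2 := Nat.one_le_pow _ _ hm
    rcases le_total lam a with h2 | h2
    · rw [hl, max_eq_right h2]
      calc 4 ^ (a + a) = 1 * 2 ^ (4 * a) := by
            rw [show (4 : ℕ) = 2 ^ 2 by norm_num, ← pow_mul, one_mul]; congr 1; ring
        _ ≤ _ := Nat.mul_le_mul_right _ hm2
    · rw [hl, max_eq_left h2]
      calc 4 ^ (lam + a) = (2 ^ lam) ^ 2 * 2 ^ (2 * a) := by
            rw [show (4 : ℕ) = 2 ^ 2 by norm_num, ← pow_mul, ← pow_mul, ← pow_add]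
            congr 1; ring
        _ ≤ (2 * m) ^ 2 * 2 ^ (2 * a) := Nat.mul_le_mul_right _ (Nat.pow_le_pow_left hlm 2)
        _ = m ^ 2 * 2 ^ (2 * a + 2) := by ring
        _ ≤ _ := Nat.mul_le_mul_left _ (Nat.pow_le_pow_right (by norm_num) (by omega))
  have hm1 : m ^ 2 * 2 ^ (4 * a) ≤ n := by
    refine le_trans ?_ h1
    calc m ^ 2 * 2 ^ (4 * a) = 1 * m ^ 2 * 2 ^ (4 * a) := by ring
      _ ≤ b * m ^ 2 * 2 ^ (8 * a) := Nat.mul_le_mul (Nat.mul_le_mul_right _ hb)
          (Nat.pow_le_pow_right (by norm_num) (by omega))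
  have hlN : l ≤ N := by
    have h2 : 2 ^ (2 * l) < 2 ^ (N + 1) := by
      calc 2 ^ (2 * l) = 4 ^ l := by rw [pow_mul]; norm_num
        _ ≤ n := h4l.trans hm1
        _ < _ := hnN
    have h3 := (Nat.pow_lt_pow_iff_right (by norm_num : 1 < 2)).1 h2
    omega
  obtain ⟨h₀, hh₀⟩ : ∃ h₀, h₀ = Nat.log 3 b + 1 := ⟨_, rfl⟩
  have hb3 : b < 3 ^ h₀ := by rw [hh₀]; exact Nat.lt_pow_succ_log_self (by norm_num) b
  have h3b : 3 ^ h₀ ≤ 3 * b := by
    rw [hh₀, pow_succ']
    exact Nat.mul_le_mul_left _ (Nat.pow_log_le_self 3 (by omega))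
  refine ⟨l, a, h₀, h₀ + a, ha10, by omega, ?_, hb3, rfl, h9, ?_⟩
  · refine hml.trans (Nat.pow_le_pow_right (by norm_num) ?_)
    have := le_max_left lam a
    omega
  · have e1 : 27 * (l + 1) ≤ 4 ^ a := by
      have g1 : a + 1 ≤ 2 ^ a := Nat.lt_two_pow_self
      calc 27 * (l + 1) ≤ 27 * (8 * k * (a + 1)) := by
            refine Nat.mul_le_mul_left _ ?_
            omega
        _ = (216 * k) * (a + 1) := by ring
        _ ≤ 2 ^ a * 2 ^ a := Nat.mul_le_mul (by omega) g1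
        _ = 4 ^ a := by rw [← mul_pow]; norm_num
    have e2 : 2 ^ l * 2 ^ l = 4 ^ l := by rw [← mul_pow]; norm_num
    have e3 : 3 ^ a ≤ 4 ^ a := Nat.pow_le_pow_left (by norm_num) a
    have e4 : 1 ≤ 4 ^ l := Nat.one_le_pow _ _ (by norm_num)
    have e5 : 1 ≤ 3 ^ (h₀ + a) := Nat.one_le_pow _ _ (by norm_num)
    rw [e2]
    have e6 : 1 ≤ 3 ^ (h₀ + a) * 4 ^ l := Nat.mul_pos e5 e4
    calc l + 3 + 2 * 3 ^ (h₀ + a) * (4 ^ l * (4 * l + 1) + 2)
        ≤ (l + 3) * (3 ^ (h₀ + a) * 4 ^ l) +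
          2 * 3 ^ (h₀ + a) * (4 ^ l * (4 * l + 1) + 2 * 4 ^ l) := by
          refine Nat.add_le_add (Nat.le_mul_of_pos_right _ e6) (Nat.mul_le_mul_left _ ?_)
          omega
      _ = 3 ^ (h₀ + a) * 4 ^ l * (9 * (l + 1)) := by ring
      _ = 3 ^ h₀ * 3 ^ a * 4 ^ l * (9 * (l + 1)) := by rw [pow_add]
      _ ≤ (3 * b) * 4 ^ a * (m ^ 2 * 2 ^ (4 * a)) * (9 * (l + 1)) := by
          refine Nat.mul_le_mul_right _ (Nat.mul_le_mul (Nat.mul_le_mul h3b e3) h4l)
      _ = b * m ^ 2 * (2 ^ (4 * a) * 4 ^ a * (27 * (l + 1))) := by ring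
      _ ≤ b * m ^ 2 * (2 ^ (4 * a) * 4 ^ a * 4 ^ a) :=
          Nat.mul_le_mul_left _ (Nat.mul_le_mul_left _ e1)
      _ = b * m ^ 2 * 2 ^ (8 * a) := by
          congr 1
          rw [show (4 : ℕ) = 2 ^ 2 by norm_num, ← pow_mul, ← pow_add, ← pow_add]
          congr 1; ring
      _ ≤ n := h1

open Classical in
/-- **The lower bound.** -/
theorem main {k n b m : ℕ} (hk : 1 ≤ k) (hn : 1728 * k ^ 2 ≤ Nat.log 2 n) (hb : 1 ≤ b)
    (hm : 1 ≤ m) (hbm : (b * m ^ 2) ^ k ≤ n ^ (k - 1)) :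
    ∃ F : Finset (Fin n → Lt), F.Nonempty ∧ (∀ w ∈ F, List.ofFn w ∈ mach.language) ∧
    ∀ (S : ℕ) (B : NBP n Lt S), B.Width b → (∀ v, (dup B v).ncard ≤ m) →
      (∀ w, B.Accepts w → List.ofFn w ∈ mach.language) →
      2 ^ ((Nat.log 2 n) ^ 2 / (128 * k ^ 2)) * (F.filter fun w => B.Accepts w).card ≤
        S * F.card := by
  obtain ⟨l, a, h₀, h, ha, hal, hml, hb3, hh, hN, hlen⟩ := num1 hk hn hb hm hbm
  obtain ⟨F, hF1, hF2, hF3⟩ := lowerN (l := l) (h := h) (n := n) (by omega) hlen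
  refine ⟨F, hF1, hF2, fun S B hwd hdup hL => ?_⟩
  have key := hF3 S b h₀ a B hwd hb3 (by omega) (by omega) hal (fun v => (hdup v).trans hml) hL
  obtain ⟨E, hE⟩ : ∃ E, E = (Nat.log 2 n) ^ 2 / (128 * k ^ 2) := ⟨_, rfl⟩
  rw [← hE]
  have h11 : E + 2 ≤ (a - 4) * (h + 1 - h₀) := by
    have e1 : 128 * k ^ 2 * E ≤ (Nat.log 2 n) ^ 2 := by rw [hE]; exact Nat.mul_div_le _ _
    have e2 : (Nat.log 2 n) ^ 2 ≤ (8 * k * (a + 1)) ^ 2 := Nat.pow_le_pow_left hN.le 2
    have e3 : k ^ 2 * (128 * E) ≤ k ^ 2 * (64 * (a + 1) ^ 2) := by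
      calc k ^ 2 * (128 * E) = 128 * k ^ 2 * E := by ring
        _ ≤ _ := e1.trans e2
        _ = _ := by ring
    have e4 : 128 * E ≤ 64 * (a + 1) ^ 2 := Nat.le_of_mul_le_mul_left e3 (by positivity)
    have e5 : h + 1 - h₀ = a + 1 := by omega
    rw [e5]
    obtain ⟨j, rfl⟩ : ∃ j, a = j + 10 := ⟨a - 10, by omega⟩
    have e6 : j + 10 - 4 = j + 6 := by omega
    rw [e6]
    nlinarith
  generalize (F.filter fun w => B.Accepts w).card = x at key ⊢
  have h12 : 4 * (2 ^ E * x) ≤ 4 * (S * F.card) := by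
    calc 4 * (2 ^ E * x) = x * 2 ^ (E + 2) := by rw [pow_add]; ring
      _ ≤ x * 2 ^ ((a - 4) * (h + 1 - h₀)) :=
          Nat.mul_le_mul_left _ (Nat.pow_le_pow_right (by norm_num) h11)
      _ ≤ 4 * S * F.card := key
      _ = _ := by ring
  omega

end Pool.Agent.TH708.Tsp.W
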