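import Pool.Agent.TH708.Tsp.Words

/-!
# The number of marked rows in a set of positions
-/

set_option autoImplicit false
set_option linter.unusedSectionVars false

namespace Pool.Agent.TH708.Tsp.W

open Finset
open Pool.Agent.H561R2.CF

/-! ## Colors of the nodes -/

/-- The parity of the depth. -/
def dp : (h : ℕ) → Nd h → Bool
  | 0, _ => false
  | _ + 1, none => false
  | h + 1, some (_, x) => !dp h x

/-- The index of a node among its siblings. -/
def ci : (h : ℕ) → Nd h → Fin 3
  | 0, _ => 0
  | _ + 1, none => 0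
  | h + 1, some (i, x) => if x = rt h then i else ci h x

theorem par_par : ∀ (h : ℕ) (u : Nd h), u ≠ rt h → Par h (par h u) u := by
  intro h
  induction h with
  | zero => intro u hu; exact absurd rfl hu
  | succ h ih =>
    intro u hu
    rcases Nd.cases' u with rfl | ⟨i, x, rfl⟩
    · exact absurd rfl hu
    · have h1 : par (h + 1) (sub i x) = if x = rt h then none else some (i, par h x) := rfl
      rw [h1]
      by_cases hx : x = rt h
      · rw [if_pos hx, hx]
        exact Par.root h i
      · rw [if_neg hx]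
        exact Par.sub i (ih x hx)

theorem dp_rt : ∀ h : ℕ, dp h (rt h) = false
  | 0 => rfl
  | _ + 1 => rfl

theorem dp_par {h : ℕ} {p c : Nd h} (e : Par h p c) : dp h c = !dp h p := by
  induction e with
  | root h i =>
    have h1 : dp (h + 1) (sub i (rt h)) = !dp h (rt h) := rfl
    rw [h1, dp_rt, dp_rt]
  | @sub h i x y e ih =>
    have h1 : dp (h + 1) (sub i x) = !dp h x := rfl
    have h2 : dp (h + 1) (sub i y) = !dp h y := rfl
    rw [h1, h2, ih]

theorem ci_par {h : ℕ} {p c : Nd h} (e : Par h p c) : c = chd h p (ci h c) := by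
  induction e with
  | root h i =>
    have h1 : ci (h + 1) (sub i (rt h)) = i := if_pos rfl
    rw [h1]
    rfl
  | @sub h i x y e ih =>
    have h1 : ci (h + 1) (sub i y) = if y = rt h then i else ci h y := rfl
    rw [h1, if_neg e.ne_rt]
    have h2 : chd (h + 1) (sub i x) (ci h y) = sub i (chd h x (ci h y)) := rfl
    rw [h2, ← ih]

theorem far {h : ℕ} {u u' : Nd h} (hu : u ≠ rt h) (hu' : u' ≠ rt h)
    (hc : (dp h u, ci h u) = (dp h u', ci h u')) :
    (par h u = par h u' → u = u') ∧ u ≠ par h u' := by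
  rw [Prod.mk.injEq] at hc
  have e1 := par_par h u hu
  have e2 := par_par h u' hu'
  constructor
  · intro hp
    rw [ci_par e1, ci_par e2, hp, hc.2]
  · intro hp
    have h1 := dp_par e2
    rw [← hp, hc.1] at h1
    cases hd : dp h u' <;> rw [hd] at h1 <;> simp at h1

variable {n h l : ℕ}

open Classical in
/-- Sets of labels at several nodes, with a further condition on the other nodes. -/
theorem small_prodH (H : (Nd h → Vec l) → Prop) (U : Nd h → Finset (Vec l))
    (W : Finset (Nd h)) (hH : ∀ z t b, t ∈ W → H z → H (Function.update z t b)) :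
    (univ.filter fun z : Nd h → Vec l => Good z ∧ H z ∧ ∀ t ∈ W, z t ∈ U t).card *
      (2 ^ l) ^ W.card ≤
      (univ.filter fun z : Nd h → Vec l => Good z ∧ H z).card * ∏ t ∈ W, (16 * (U t).card) := by
  induction W using Finset.induction_on with
  | empty => simp
  | @insert e W he ih =>
    have ih := ih fun z t b ht => hH z t b (mem_insert_of_mem ht)
    have h3 : (univ.filter fun z : Nd h → Vec l =>
        Good z ∧ (H z ∧ ∀ t ∈ W, z t ∈ U t) ∧ z e ∈ U e).card * 2 ^ l ≤
        16 * (U e).card * (univ.filter fun z : Nd h → Vec l =>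
        Good z ∧ H z ∧ ∀ t ∈ W, z t ∈ U t).card := by
      convert resample (fun z : Nd h → Vec l => H z ∧ ∀ t ∈ W, z t ∈ U t) e (by
        intro z b hz
        refine ⟨hH z e b (mem_insert_self _ _) hz.1, fun t ht => ?_⟩
        have hne : t ≠ e := by
          rintro rfl
          exact he ht
        rw [Function.update_of_ne hne]
        exact hz.2 t ht) (U e)
    have h4 : (univ.filter fun z : Nd h → Vec l => Good z ∧ H z ∧ ∀ t ∈ insert e W, z t ∈ U t) =
        univ.filter fun z : Nd h → Vec l => Good z ∧ (H z ∧ ∀ t ∈ W, z t ∈ U t) ∧ z e ∈ U e := by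
      ext z
      simp only [Finset.mem_filter, Finset.mem_univ, true_and, Finset.mem_insert,
        forall_eq_or_imp]
      tauto
    rw [h4, card_insert_of_notMem he, prod_insert he]
    generalize (univ.filter fun z : Nd h → Vec l =>
      Good z ∧ (H z ∧ ∀ t ∈ W, z t ∈ U t) ∧ z e ∈ U e).card = x at h3 ⊢
    generalize (univ.filter fun z : Nd h → Vec l =>
      Good z ∧ H z ∧ ∀ t ∈ W, z t ∈ U t).card = y at h3 ih
    calc x * (2 ^ l) ^ (W.card + 1) = x * 2 ^ l * (2 ^ l) ^ W.card := by ring
      _ ≤ 16 * (U e).card * y * (2 ^ l) ^ W.card := Nat.mul_le_mul_right _ h3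
      _ = 16 * (U e).card * (y * (2 ^ l) ^ W.card) := by ring
      _ ≤ 16 * (U e).card * ((univ.filter fun z : Nd h → Vec l => Good z ∧ H z).card *
          ∏ t ∈ W, (16 * (U t).card)) := Nat.mul_le_mul_left _ ih
      _ = _ := by ring

open Classical in
theorem double (G : Finset (Nd h → Vec l)) (ch : (Nd h → Vec l) → Finset (Fin n))
    (D : Finset (Fin n)) (K : ℕ) :
    ∑ κ ∈ D.powerset, K ^ κ.card * (G.filter fun z => κ ⊆ ch z).card =
      ∑ z ∈ G, (1 + K) ^ (D ∩ ch z).card := by
  have e1 : ∀ z, (1 + K) ^ (D ∩ ch z).card =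
      ∑ κ ∈ D.powerset, if κ ⊆ ch z then K ^ κ.card else 0 := by
    intro z
    rw [← sum_filter]
    have h1 : D.powerset.filter (fun κ => κ ⊆ ch z) = (D ∩ ch z).powerset := by
      ext κ
      rw [mem_filter, mem_powerset, mem_powerset, subset_inter_iff]
    rw [h1]
    have h2 := sum_pow_mul_eq_add_pow K 1 (D ∩ ch z)
    rw [add_comm 1 K, ← h2]
    apply sum_congr rfl
    intro κ _
    rw [one_pow, mul_one]
  rw [sum_congr rfl fun z _ => e1 z, sum_comm]
  apply sum_congr rfl
  intro κ _
  rw [← sum_filter, sum_const, smul_eq_mul, mul_comm]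

section

variable (pos : Nd h × Row l → Fin n)

/-- The position of the marked row. -/
def key (z : Nd h → Vec l) (u : Nd h) : Fin n := pos (u, (pv h 0 z u, z u))

variable {pos}

theorem key_inj (hpos : Function.Injective pos) {z z' : Nd h → Vec l} {u u' : Nd h}
    (e : key pos z u = key pos z' u') :
    u = u' ∧ z u = z' u' ∧ pv h 0 z u = pv h 0 z' u' := by
  have h1 := hpos e
  rw [Prod.mk.injEq, Prod.mk.injEq] at h1
  exact ⟨h1.1, h1.2.2, h1.2.1⟩

/-- The nodes of a color. -/
def colored (h : ℕ) (j : Bool × Fin 3) : Finset (Nd h) :=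
  univ.filter fun u => u ≠ rt h ∧ (dp h u, ci h u) = j

open Classical in
theorem count_color (hpos : Function.Injective pos) (hl : 4 ≤ l) (j : Bool × Fin 3)
    (κ : Finset (Fin n)) :
    ((univ.filter fun z : Nd h → Vec l => Good z).filter fun z =>
      κ ⊆ (colored h j).image (key pos z)).card * (2 ^ (2 * l - 8)) ^ κ.card ≤
      (univ.filter fun z : Nd h → Vec l => Good z).card := by
  rcases ((univ.filter fun z : Nd h → Vec l => Good z).filter fun z =>
      κ ⊆ (colored h j).image (key pos z)).eq_empty_or_nonempty with h0 | ⟨z₁, hz₁⟩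
  · rw [h0, card_empty, zero_mul]; exact Nat.zero_le _
  rw [mem_filter, mem_filter] at hz₁
  obtain ⟨⟨_, hg₁⟩, hκ⟩ := hz₁
  let T : Finset (Nd h) := (colored h j).filter fun u => key pos z₁ u ∈ κ
  have hT : ∀ t ∈ T, t ≠ rt h ∧ (dp h t, ci h t) = j ∧ key pos z₁ t ∈ κ := by
    intro t ht
    simp only [T, colored, mem_filter, mem_univ, true_and] at ht
    exact ⟨ht.1.1, ht.1.2, ht.2⟩
  have hκT : κ.card = T.card := by
    have h1 : κ = T.image (key pos z₁) := by
      ext i
      rw [mem_image]
      constructor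
      · intro hi
        obtain ⟨u, hu, rfl⟩ := mem_image.1 (hκ hi)
        exact ⟨u, mem_filter.2 ⟨hu, hi⟩, rfl⟩
      · rintro ⟨u, hu, rfl⟩
        exact (hT u hu).2.2
    rw [h1, card_image_of_injective]
    intro u u' huu
    exact (key_inj hpos huu).1
  have hW : (T ∪ T.image (par h)).card = 2 * T.card := by
    rw [card_union_of_disjoint, card_image_of_injOn, two_mul]
    · intro u hu u' hu' huu
      obtain ⟨a1, a2, _⟩ := hT u (mem_coe.1 hu)
      obtain ⟨b1, b2, _⟩ := hT u' (mem_coe.1 hu')
      exact (far a1 b1 (a2.trans b2.symm)).1 huu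
    · rw [disjoint_left]
      intro u hu hu'
      obtain ⟨u', hu2, rfl⟩ := mem_image.1 hu'
      obtain ⟨a1, a2, _⟩ := hT _ hu
      obtain ⟨b1, b2, _⟩ := hT u' hu2
      exact (far a1 b1 (a2.trans b2.symm)).2 rfl
  have h1 := small_prod (fun t => {z₁ t}) (T ∪ T.image (par h))
  simp only [card_singleton, mul_one, prod_const] at h1
  have h2 : ((univ.filter fun z : Nd h → Vec l => Good z).filter fun z =>
      κ ⊆ (colored h j).image (key pos z)).card ≤
      (univ.filter fun z : Nd h → Vec l => Good z ∧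
        ∀ t ∈ T ∪ T.image (par h), z t ∈ ({z₁ t} : Finset (Vec l))).card := by
    apply card_le_card
    intro z hz
    rw [mem_filter, mem_filter] at hz
    obtain ⟨⟨_, hg⟩, hκz⟩ := hz
    rw [mem_filter]
    refine ⟨mem_univ _, hg, ?_⟩
    have h3 : ∀ t ∈ T, z t = z₁ t ∧ z (par h t) = z₁ (par h t) := by
      intro t ht
      obtain ⟨a1, a2, a3⟩ := hT t ht
      obtain ⟨u, hu, hk⟩ := mem_image.1 (hκz a3)
      obtain ⟨rfl, b2, b3⟩ := key_inj hpos hk
      refine ⟨b2, ?_⟩
      unfold pv at b3
      rw [if_neg a1, if_neg a1] at b3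
      exact b3
    intro t ht
    rw [mem_singleton]
    rw [mem_union, mem_image] at ht
    rcases ht with ht | ⟨u, hu, rfl⟩
    · exact (h3 t ht).1
    · exact (h3 u hu).2
  rw [hW] at h1
  have hpos' : 0 < 16 ^ (2 * T.card) := by positivity
  refine Nat.le_of_mul_le_mul_right ?_ hpos'
  have e1 : (2 ^ l) ^ (2 * T.card) = (2 ^ (2 * l - 8)) ^ κ.card * 16 ^ (2 * T.card) := by
    rw [hκT, show (16 : ℕ) = 2 ^ 4 by norm_num, ← pow_mul, ← pow_mul, ← pow_mul, ← pow_add]
    congr 1
    obtain ⟨q, rfl⟩ : ∃ q, l = q + 4 := ⟨l - 4, by omega⟩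
    have : 2 * (q + 4) - 8 = 2 * q := by omega
    rw [this]
    ring
  calc _ = ((univ.filter fun z : Nd h → Vec l => Good z).filter fun z =>
        κ ⊆ (colored h j).image (key pos z)).card * (2 ^ l) ^ (2 * T.card) := by
        rw [e1]; ring
    _ ≤ _ := (Nat.mul_le_mul_right _ h2).trans h1

open Classical in
theorem moment_color (hpos : Function.Injective pos) (hl : 4 ≤ l) (j : Bool × Fin 3)
    (D : Finset (Fin n)) (K x : ℕ) (hK : 0 < K) (hKx : K * x = 2 ^ (2 * l - 8))
    (hD : D.card ≤ x) :
    ∑ z ∈ univ.filter (fun z : Nd h → Vec l => Good z),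
      (1 + K) ^ (D ∩ (colored h j).image (key pos z)).card ≤
      4 * (univ.filter fun z : Nd h → Vec l => Good z).card := by
  set N := (univ.filter fun z : Nd h → Vec l => Good z).card with hN
  have hx : 0 < x := by
    rcases Nat.eq_zero_or_pos x with h0 | h0
    · rw [h0, mul_zero] at hKx
      have : 0 < 2 ^ (2 * l - 8) := by positivity
      omega
    · exact h0
  rw [← double _ (fun z => (colored h j).image (key pos z)) D K]
  have hpos' : 0 < (2 ^ (2 * l - 8)) ^ D.card := by positivity
  refine Nat.le_of_mul_le_mul_right ?_ hpos'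
  rw [sum_mul]
  calc _ ≤ ∑ κ ∈ D.powerset, N * (K ^ κ.card * (2 ^ (2 * l - 8)) ^ (D.card - κ.card)) := by
        apply sum_le_sum
        intro κ hκ
        have h1 := count_color hpos hl j κ
        have h2 : κ.card ≤ D.card := card_le_card (mem_powerset.1 hκ)
        have h3 : (2 ^ (2 * l - 8)) ^ D.card =
            (2 ^ (2 * l - 8)) ^ κ.card * (2 ^ (2 * l - 8)) ^ (D.card - κ.card) := by
          rw [← pow_add]; congr 1; omega
        rw [h3]
        calc _ = (((univ.filter fun z : Nd h → Vec l => Good z).filter fun z =>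
              κ ⊆ (colored h j).image (key pos z)).card * (2 ^ (2 * l - 8)) ^ κ.card) *
              (K ^ κ.card * (2 ^ (2 * l - 8)) ^ (D.card - κ.card)) := by ring
          _ ≤ _ := Nat.mul_le_mul_right _ h1
    _ = N * (K + 2 ^ (2 * l - 8)) ^ D.card := by
        rw [← mul_sum, sum_pow_mul_eq_add_pow]
    _ = N * (K ^ D.card * (1 + x) ^ D.card) := by
        rw [← mul_pow, ← hKx]; congr 2; ring
    _ ≤ N * (K ^ D.card * (4 * x ^ D.card)) :=
        Nat.mul_le_mul_left _ (Nat.mul_le_mul_left _ (pow_four hx hD))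
    _ = 4 * N * (2 ^ (2 * l - 8)) ^ D.card := by rw [← hKx, mul_pow]; ring

open Classical in
/-- **The moment bound.** -/
theorem moment (hpos : Function.Injective pos) (hl : 4 ≤ l)
    (D : Finset (Fin n)) (q K x : ℕ) (hq : 1 ≤ q) (hqK : q ^ 6 ≤ 1 + K) (hK : 0 < K)
    (hKx : K * x = 2 ^ (2 * l - 8)) (hD : D.card ≤ x) :
    ∑ z ∈ univ.filter (fun z : Nd h → Vec l => Good z),
      q ^ (D ∩ univ.image (key pos z)).card ≤
      24 * q * (univ.filter fun z : Nd h → Vec l => Good z).card := by
  have hpt : ∀ z : Nd h → Vec l, q ^ (D ∩ univ.image (key pos z)).card ≤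
      q * ∑ j : Bool × Fin 3, (1 + K) ^ (D ∩ (colored h j).image (key pos z)).card := by
    intro z
    have h1 : D ∩ univ.image (key pos z) ⊆ {key pos z (rt h)} ∪
        univ.biUnion fun j : Bool × Fin 3 => D ∩ (colored h j).image (key pos z) := by
      intro i hi
      rw [mem_inter, mem_image] at hi
      obtain ⟨hiD, u, _, rfl⟩ := hi
      rw [mem_union, mem_singleton, mem_biUnion]
      by_cases hu : u = rt h
      · left; rw [hu]
      · right
        refine ⟨(dp h u, ci h u), mem_univ _, mem_inter.2 ⟨hiD, mem_image.2 ⟨u, ?_, rfl⟩⟩⟩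
        simp only [colored, mem_filter, mem_univ, true_and]
        exact ⟨hu, trivial⟩
    have h2 : (D ∩ univ.image (key pos z)).card ≤
        1 + ∑ j : Bool × Fin 3, (D ∩ (colored h j).image (key pos z)).card := by
      refine (card_le_card h1).trans ((card_union_le _ _).trans ?_)
      rw [card_singleton]
      exact Nat.add_le_add_left card_biUnion_le _
    obtain ⟨j₀, _, hj₀⟩ := exists_max_image univ
      (fun j : Bool × Fin 3 => (D ∩ (colored h j).image (key pos z)).card)
      ⟨(false, 0), mem_univ _⟩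
    have h3 : ∑ j : Bool × Fin 3, (D ∩ (colored h j).image (key pos z)).card ≤
        6 * (D ∩ (colored h j₀).image (key pos z)).card := by
      refine (sum_le_card_nsmul _ _ _ fun j _ => hj₀ j (mem_univ _)).trans (le_of_eq ?_)
      rw [smul_eq_mul, card_univ]
      rfl
    calc q ^ (D ∩ univ.image (key pos z)).card
        ≤ q ^ (1 + 6 * (D ∩ (colored h j₀).image (key pos z)).card) :=
          Nat.pow_le_pow_right hq (h2.trans (Nat.add_le_add_left h3 _))
      _ = q * (q ^ 6) ^ (D ∩ (colored h j₀).image (key pos z)).card := by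
          rw [pow_add, pow_one, pow_mul]
      _ ≤ q * (1 + K) ^ (D ∩ (colored h j₀).image (key pos z)).card :=
          Nat.mul_le_mul_left _ (Nat.pow_le_pow_left hqK _)
      _ ≤ _ := Nat.mul_le_mul_left _ (single_le_sum
          (f := fun j : Bool × Fin 3 => (1 + K) ^ (D ∩ (colored h j).image (key pos z)).card)
          (fun _ _ => Nat.zero_le _) (mem_univ j₀))
  calc _ ≤ ∑ z ∈ univ.filter (fun z : Nd h → Vec l => Good z),
        q * ∑ j : Bool × Fin 3, (1 + K) ^ (D ∩ (colored h j).image (key pos z)).card :=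
        sum_le_sum fun z _ => hpt z
    _ = q * ∑ j : Bool × Fin 3, ∑ z ∈ univ.filter (fun z : Nd h → Vec l => Good z),
        (1 + K) ^ (D ∩ (colored h j).image (key pos z)).card := by
        rw [← mul_sum, sum_comm]
    _ ≤ q * ∑ _j : Bool × Fin 3, 4 * (univ.filter fun z : Nd h → Vec l => Good z).card :=
        Nat.mul_le_mul_left _ (sum_le_sum fun j _ => moment_color hpos hl j D K x hK hKx hD)
    _ = _ := by
        rw [sum_const, card_univ, smul_eq_mul,
          show Fintype.card (Bool × Fin 3) = 6 from rfl]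
        ring

end

end Pool.Agent.TH708.Tsp.W
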