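import Pool.Agent.TH708.Tsp.Moment

/-!
# Programs in which few positions are read both before and after a node: the strong form
-/

set_option autoImplicit false
set_option linter.unusedSectionVars false

namespace Pool.Agent.TH708.Tsp.W

open Finset
open Pool.Agent.H561R2.CF

variable {n S : ℕ} {Γ : Type}

open Classical in
/-- **The lower bound.** -/
theorem lower_strong {B : NBP n Γ S} {b h h₀ l a : ℕ} (hwd : B.Width b) (hb : b < 3 ^ h₀)
    (hh : h₀ ≤ h) (ha : 1 ≤ a) (hal : 6 * a + 7 ≤ l)
    (hdup : ∀ v, (dup B v).ncard ≤ 2 ^ (2 * l - 12 * a - 14))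
    {pos : Nd h × Row l → Fin n} (hpos : Function.Injective pos)
    (w : (Nd h → Vec l) → Fin n → Γ)
    (h2 : ∀ z, Good z → ∀ u, ∃ w', (∀ i, i ≠ key pos z u → w z i = w' i) ∧ ¬B.Accepts w')
    (h3 : ∀ z z', Good z → Good z' → ∀ (A : Set (Fin n)) [DecidablePred (· ∈ A)],
      B.Accepts (fun i => if i ∈ A then w z i else w z' i) →
      ∃ z'', Good z'' ∧ ∀ u, (key pos z'' u ∈ A ∧ key pos z'' u = key pos z u) ∨
        (key pos z'' u ∉ A ∧ key pos z'' u = key pos z' u))
    (h5 : ∀ z z' i, ((∃ u, key pos z u = i) ↔ ∃ u, key pos z' u = i) → w z i = w z' i) :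
    (univ.filter fun z : Nd h → Vec l => Good z ∧ B.Accepts (w z)).card *
        2 ^ (a * (h + 1 - h₀)) ≤
      S * (24 * (1 + 4 ^ a) * (univ.filter fun z : Nd h → Vec l => Good z).card) := by
  set N := (univ.filter fun z : Nd h → Vec l => Good z).card with hN
  set F : Finset (Nd h → Vec l) := univ.filter fun z => Good z ∧ B.Accepts (w z) with hF
  have hFm : ∀ z : ↥F, Good z.1 ∧ B.Accepts (w z.1) := fun z => (mem_filter.1 z.2).2
  -- the walks
  have hwalk' : ∀ z : ↥F, ∃ l, B.Walk B.start l B.accept ∧ ∀ p ∈ l, w z.1 ∈ p.2 :=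
    fun z => (hFm z).2
  choose lw hwalk hl using hwalk'
  have hall : ∀ (z : ↥F) u, Rd (lw z) (key pos z.1 u) := by
    intro z u
    by_contra hcon
    obtain ⟨w', e1, e2⟩ := h2 z.1 (hFm z).1 u
    refine e2 ⟨lw z, hwalk z, fun p hp => ?_⟩
    obtain ⟨v, v', he⟩ := (hwalk z).exists_edge p hp
    refine B.reads _ _ _ _ he (w z.1) w' (fun i hi => ?_) (hl z p hp)
    refine e1 i ?_
    rintro rfl
    exact hcon ⟨p, hp, hi⟩
  have hproc : ∀ z : ↥F, Process b fun t u => Rd ((lw z).take t) (key pos z.1 u) := by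
    intro z
    refine ⟨fun u hu => ?_, ⟨(lw z).length, fun u => ?_⟩, fun t u hu => ?_,
      fun t s hs => ?_⟩
    · obtain ⟨p, hp, -⟩ := hu
      simp at hp
    · simp only [List.take_length]
      exact hall z u
    · obtain ⟨p, hp, hi⟩ := hu
      refine ⟨p, ?_, hi⟩
      rw [List.take_add_one]
      exact List.mem_append_left _ hp
    · have aux : ∀ x ∈ s, ∃ p, (lw z)[t]? = some p ∧ key pos z.1 x ∈ p.1 := by
        intro x hx
        obtain ⟨b1, p, hp, hpx⟩ := hs x hx
        rw [List.take_add_one, List.mem_append] at hp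
        rcases hp with hp | hp
        · exact absurd ⟨p, hp, hpx⟩ b1
        · rw [Option.mem_toList] at hp
          exact ⟨p, hp, hpx⟩
      rcases s.eq_empty_or_nonempty with rfl | ⟨x₀, hx₀⟩
      · simp
      · obtain ⟨p, hp, -⟩ := aux x₀ hx₀
        obtain ⟨v, v', he⟩ := (hwalk z).exists_edge p (List.mem_of_getElem? hp)
        refine le_trans ?_ (hwd _ _ _ _ he)
        refine Finset.card_le_card_of_injOn (key pos z.1) (fun x hx => ?_)
          fun x _ y _ hxy => (key_inj hpos hxy).1
        obtain ⟨q, hq, hqx⟩ := aux x hx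
        rw [hp] at hq
        rw [Option.some.inj hq]
        exact hqx
  choose t L hL1 hL2 using fun z => (Process.exists_crossing hb h hh _ (hproc z))
  choose c hc1 hc2 using fun z => (hwalk z).split (t z)
  -- what is read before and after
  have hbef : ∀ (z : ↥F) i, Rd ((lw z).take (t z)) i → Between B B.start (c z) i :=
    fun z i hi => ⟨_, hc1 z, hi⟩
  have haft : ∀ (z : ↥F) i, Rd ((lw z).drop (t z)) i → Between B (c z) B.accept i :=
    fun z i hi => ⟨_, hc2 z, hi⟩
  have hsplit : ∀ (z : ↥F) u, ¬ Rd ((lw z).take (t z)) (key pos z.1 u) →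
      Rd ((lw z).drop (t z)) (key pos z.1 u) := by
    intro z u hu
    obtain ⟨p, hp, hpi⟩ := hall z u
    rw [← List.take_append_drop (t z) (lw z), List.mem_append] at hp
    rcases hp with hp | hp
    · exact absurd ⟨p, hp, hpi⟩ hu
    · exact ⟨p, hp, hpi⟩
  let Dw : Fin S → Finset (Fin n) := fun v => univ.filter fun i => i ∈ dup B v
  have hDw : ∀ v i, i ∈ Dw v ↔ i ∈ dup B v := fun v i => by
    simp only [Dw, mem_filter, mem_univ, true_and]
  have hDc : ∀ v, (Dw v).card ≤ 2 ^ (2 * l - 12 * a - 14) := by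
    intro v
    have h1 : ((Dw v : Finset (Fin n)) : Set (Fin n)) = dup B v := by
      ext i; rw [mem_coe, hDw]
    rw [← Set.ncard_coe_finset, h1]
    exact hdup v
  let ch : ↥F → Finset (Fin n) := fun z => univ.image (key pos z.1)
  have hch : ∀ (z : ↥F) i, i ∈ ch z ↔ ∃ u, key pos z.1 u = i := fun z i => by
    simp only [ch, mem_image, mem_univ, true_and]
  -- mixtures
  have mix : ∀ z z' : ↥F, c z = c z' → ch z ∩ Dw (c z) = ch z' ∩ Dw (c z) →
      ∃ z'' : Nd h → Vec l, Good z'' ∧ ∀ u,
        (Between B B.start (c z) (key pos z'' u) ∧ key pos z'' u = key pos z.1 u) ∨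
        (¬ Between B B.start (c z) (key pos z'' u) ∧ key pos z'' u = key pos z'.1 u) := by
    intro z z' hcc hD
    have hwk : B.Walk B.start ((lw z).take (t z) ++ (lw z').drop (t z')) B.accept :=
      (hc1 z).append (hcc ▸ hc2 z')
    obtain ⟨z'', e1, e2⟩ := h3 z.1 z'.1 (hFm z).1 (hFm z').1
      {i | Between B B.start (c z) i} (by
      refine ⟨_, hwk, fun p hp => ?_⟩
      obtain ⟨v, v', he⟩ := hwk.exists_edge p hp
      rw [List.mem_append] at hp
      rcases hp with hp | hp
      · refine B.reads _ _ _ _ he (w z.1) _ (fun i hi => ?_) (hl z p (List.mem_of_mem_take hp))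
        have hmem : Between B B.start (c z) i := hbef z i ⟨p, hp, hi⟩
        exact (if_pos hmem).symm
      · refine B.reads _ _ _ _ he (w z'.1) _ (fun i hi => ?_) (hl z' p (List.mem_of_mem_drop hp))
        have h1 : Between B (c z') B.accept i := haft z' i ⟨p, hp, hi⟩
        by_cases hA : Between B B.start (c z) i
        · have h4 : i ∈ Dw (c z) := (hDw _ _).2 ⟨hA, by rw [hcc]; exact h1⟩
          have h7 : i ∈ ch z ∩ Dw (c z) ↔ i ∈ ch z' ∩ Dw (c z) := by rw [hD]
          rw [mem_inter, mem_inter, hch, hch] at h7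
          simp only [h4, and_true] at h7
          exact ((if_pos hA).trans (h5 z.1 z'.1 i h7)).symm
        · exact (if_neg hA).symm)
    exact ⟨z'', e1, e2⟩
  have hsame : ∀ z z' : ↥F, c z = c z' → ch z ∩ Dw (c z) = ch z' ∩ Dw (c z) → ∀ u,
      (Between B B.start (c z) (key pos z.1 u) ↔ Between B B.start (c z) (key pos z'.1 u)) := by
    intro z z' hcc hD u
    constructor
    · intro h1
      obtain ⟨q, _, hq⟩ := mix z' z hcc.symm (by rw [← hcc]; exact hD.symm)
      rw [← hcc] at hq
      rcases hq u with h4 | h4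
      · rw [← h4.2]; exact h4.1
      · exact absurd h1 (by rw [← h4.2]; exact h4.1)
    · intro h1
      obtain ⟨q, _, hq⟩ := mix z z' hcc hD
      rcases hq u with h4 | h4
      · rw [← h4.2]; exact h4.1
      · exact absurd h1 (by rw [← h4.2]; exact h4.1)
  set M := h + 1 - h₀ with hM
  -- the size of a class
  have hclass : ∀ (v : Fin S) (κ : Finset (Fin n)),
      (univ.filter fun z : ↥F => c z = v ∧ ch z ∩ Dw v = κ).card * 2 ^ (a * M) ≤
        (4 ^ a) ^ κ.card * ((univ.filter fun z : Nd h → Vec l => Good z).filter fun z =>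
          κ ⊆ univ.image (key pos z)).card := by
    intro v κ
    set 𝓒 : Finset ↥F := univ.filter fun z : ↥F => c z = v ∧ ch z ∩ Dw v = κ with h𝓒
    rcases 𝓒.eq_empty_or_nonempty with h0 | ⟨z₀, hz₀⟩
    · rw [h0, card_empty, zero_mul]; exact Nat.zero_le _
    have hmem : ∀ z ∈ 𝓒, c z = v ∧ ch z ∩ Dw v = κ := by
      intro z hz
      rw [h𝓒, mem_filter] at hz
      exact hz.2
    obtain ⟨e1, e2⟩ := hmem z₀ hz₀
    have hI : ∀ z ∈ 𝓒, ∀ u, (Between B B.start v (key pos z.1 u) ↔
        Between B B.start v (key pos z₀.1 u)) := by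
      intro z hz u
      obtain ⟨g1, g2⟩ := hmem z hz
      have := hsame z z₀ (g1.trans e1.symm) (by rw [g1]; exact g2.trans e2.symm) u
      rw [g1] at this
      exact this
    let R : Finset (Nd h) := univ.filter fun u => key pos z₀.1 u ∈ Dw v
    have hRκ : κ.card = R.card := by
      have h1 : κ = R.image fun u => key pos z₀.1 u := by
        rw [← e2]
        ext i
        rw [mem_inter, hch, mem_image]
        constructor
        · rintro ⟨⟨u, rfl⟩, h1⟩
          exact ⟨u, mem_filter.2 ⟨mem_univ _, h1⟩, rfl⟩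
        · rintro ⟨u, hu, rfl⟩
          exact ⟨⟨u, rfl⟩, (mem_filter.1 hu).2⟩
      rw [h1, card_image_of_injective]
      intro u u' huu
      exact (key_inj hpos huu).1
    let U : Nd h → Finset (Vec l) := fun u => 𝓒.image fun z => z.1 u
    have hUR : ∀ u ∈ R, (U u).card ≤ 1 := by
      intro u hu
      rw [card_le_one]
      have key' : ∀ x ∈ U u, x = z₀.1 u := by
        intro x hx
        simp only [U, mem_image] at hx
        obtain ⟨z, hz, rfl⟩ := hx
        obtain ⟨g1, g2⟩ := hmem z hz
        have h1 : key pos z₀.1 u ∈ ch z₀ ∩ Dw v :=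
          mem_inter.2 ⟨(hch _ _).2 ⟨u, rfl⟩, (mem_filter.1 hu).2⟩
        rw [e2, ← g2, mem_inter, hch] at h1
        obtain ⟨⟨u', hu'⟩, _⟩ := h1
        obtain ⟨rfl, h4, _⟩ := key_inj hpos hu'
        exact h4
      intro x hx y hy
      rw [key' x hx, key' y hy]
    let Z : Finset (Nd h) := univ.filter fun u => (U u).card ^ 2 ≤ 2 ^ l
    set W := R ∪ Z with hW
    -- the crossing edges are hit
    have hit : ∀ e ∈ L z₀, e.1 ∈ W ∨ e.2 ∈ W := by
      intro e he
      by_contra hcon
      rw [not_or, hW, mem_union, mem_union, not_or, not_or] at hcon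
      obtain ⟨⟨hpR, hpZ⟩, hcR, hcZ⟩ := hcon
      obtain ⟨hadj, hin, hout⟩ := (hL2 z₀).1 e he
      have hp : Between B B.start v (key pos z₀.1 e.1) := by
        have := hbef z₀ _ hin
        rw [e1] at this
        exact this
      have hc : ¬ Between B B.start v (key pos z₀.1 e.2) := by
        intro h1
        apply hcR
        have h4 := haft z₀ _ (hsplit z₀ e.2 hout)
        rw [e1] at h4
        exact mem_filter.2 ⟨mem_univ _, (hDw _ _).2 ⟨h1, h4⟩⟩
      have hall' : ∀ x ∈ U e.1, ∀ y ∈ U e.2, x ⬝ᵥ y = 0 := by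
        intro x hx y hy
        simp only [U, mem_image] at hx hy
        obtain ⟨z, hz, rfl⟩ := hx
        obtain ⟨z', hz', rfl⟩ := hy
        obtain ⟨g1, g2⟩ := hmem z hz
        obtain ⟨g1', g2'⟩ := hmem z' hz'
        obtain ⟨q, hq, hqt⟩ := mix z z' (g1.trans g1'.symm) (by rw [g1]; exact g2.trans g2'.symm)
        rw [g1] at hqt
        have k1 : q e.1 = z.1 e.1 := by
          rcases hqt e.1 with h1 | h1
          · exact (key_inj hpos h1.2).2.1
          · exact absurd ((hI z' hz' e.1).2 hp) (by rw [← h1.2]; exact h1.1)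
        have k2 : q e.2 = z'.1 e.2 := by
          rcases hqt e.2 with h1 | h1
          · exact absurd ((hI z hz e.2).1 (by rw [← h1.2]; exact h1.1)) hc
          · exact (key_inj hpos h1.2).2.1
        rw [← k1, ← k2]
        rcases hadj with hadj | hadj
        · exact hq _ _ hadj
        · rw [dotProduct_comm]
          exact hq _ _ hadj
      have h1 := orth_card (U e.1) (U e.2) hall'
      have h7 : 2 ^ l < (U e.1).card ^ 2 := by
        by_contra h'
        exact hpZ (mem_filter.2 ⟨mem_univ _, not_lt.1 h'⟩)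
      have h8 : 2 ^ l < (U e.2).card ^ 2 := by
        by_contra h'
        exact hcZ (mem_filter.2 ⟨mem_univ _, not_lt.1 h'⟩)
      have h9 := Nat.mul_lt_mul'' h7 h8
      have h10 : ((U e.1).card * (U e.2).card) ^ 2 ≤ (2 ^ l) ^ 2 := Nat.pow_le_pow_left h1 2
      rw [mul_pow, sq (2 ^ l)] at h10
      exact absurd h10 (not_le.2 h9)
    have hMW : M ≤ W.card := by
      let f : Nd h × Nd h → Nd h := fun e => if e.1 ∈ W then e.1 else e.2
      have hf : ∀ e ∈ L z₀, f e ∈ W := by
        intro e he
        by_cases h1 : e.1 ∈ W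
        · simp only [f, if_pos h1]; exact h1
        · simp only [f, if_neg h1]
          exact (hit e he).resolve_left h1
      have hinj : ∀ e ∈ L z₀, ∀ e' ∈ L z₀, f e = f e' → e = e' := by
        intro e he e' he' hee
        have i1 := List.inj_on_of_nodup_map (hL2 z₀).2.1
        have i2 := List.inj_on_of_nodup_map (hL2 z₀).2.2
        simp only [f] at hee
        split_ifs at hee with h1 h4 h4
        · exact i1 he he' hee
        · exact absurd (hee ▸ ((hL2 z₀).1 e he).2.1) ((hL2 z₀).1 e' he').2.2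
        · exact absurd (hee ▸ ((hL2 z₀).1 e' he').2.1) ((hL2 z₀).1 e he).2.2
        · exact i2 he he' hee
      have hnd : ((L z₀).map f).Nodup :=
        ((hL2 z₀).2.1.of_map).map_on fun e he e' he' => hinj e he e' he'
      have h1 : ((L z₀).map f).toFinset ⊆ W := by
        intro x hx
        rw [List.mem_toFinset, List.mem_map] at hx
        obtain ⟨e, he, rfl⟩ := hx
        exact hf e he
      have h4 := card_le_card h1
      rw [List.toFinset_card_of_nodup hnd, List.length_map] at h4
      have h7 := hL1 z₀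
      omega
    -- counting
    set P : Finset (Nd h) := R ∪ R.image (par h) with hP
    have hPc : P.card ≤ 2 * κ.card := by
      rw [hRκ]
      have := card_union_le R (R.image (par h))
      have h7 : (R.image (par h)).card ≤ R.card := card_image_le
      rw [← hP] at this
      omega
    have hWP : M ≤ (W \ P).card + 2 * κ.card := by
      have := card_le_card_sdiff_add_card (s := W) (t := P)
      omega
    let H : (Nd h → Vec l) → Prop := fun z => ∀ u ∈ R, key pos z u = key pos z₀.1 u
    have hH : ∀ z t b, t ∈ W \ P → H z → H (Function.update z t b) := by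
      intro z t b ht hz u hu
      have ht' := (mem_sdiff.1 ht).2
      rw [hP, mem_union, not_or] at ht'
      have hut : u ≠ t := by
        rintro rfl
        exact ht'.1 hu
      have hpt : par h u ≠ t := by
        rintro rfl
        exact ht'.2 (mem_image_of_mem _ hu)
      rw [← hz u hu]
      show pos (u, (pv h 0 (Function.update z t b) u, Function.update z t b u)) =
        pos (u, (pv h 0 z u, z u))
      rw [Function.update_of_ne hut]
      have e3 : pv h 0 (Function.update z t b) u = pv h 0 z u := by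
        unfold pv
        rw [Function.update_of_ne hpt]
      rw [e3]
    have h1 : 𝓒.card ≤ (univ.filter fun z : Nd h → Vec l => Good z ∧ H z ∧
        ∀ u ∈ W \ P, z u ∈ U u).card := by
      apply card_le_card_of_injOn (fun z : ↥F => z.1)
      · intro z hz
        rw [mem_coe] at hz
        rw [mem_coe, mem_filter]
        refine ⟨mem_univ _, (hFm z).1, fun u hu => ?_, fun u _ => mem_image_of_mem _ hz⟩
        obtain ⟨g1, g2⟩ := hmem z hz
        have h7 : key pos z₀.1 u ∈ ch z₀ ∩ Dw v :=
          mem_inter.2 ⟨(hch _ _).2 ⟨u, rfl⟩, (mem_filter.1 hu).2⟩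
        rw [e2, ← g2, mem_inter, hch] at h7
        obtain ⟨⟨u', hu'⟩, _⟩ := h7
        obtain ⟨rfl, _⟩ := key_inj hpos hu'
        exact hu'
      · intro z _ z' _ hzz
        exact Subtype.ext hzz
    have h4 : (univ.filter fun z : Nd h → Vec l => Good z ∧ H z ∧
        ∀ u ∈ W \ P, z u ∈ U u).card * (2 ^ l) ^ (W \ P).card ≤
        (univ.filter fun z : Nd h → Vec l => Good z ∧ H z).card *
          ∏ u ∈ W \ P, (16 * (U u).card) := by
      convert small_prodH H U (W \ P) hH
    have h7 : (∏ u ∈ W \ P, (16 * (U u).card)) * (2 ^ a) ^ (W \ P).card ≤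
        (2 ^ l) ^ (W \ P).card := by
      rw [← prod_const (s := W \ P) (2 ^ a), ← prod_const (s := W \ P) (2 ^ l),
        ← prod_mul_distrib]
      apply prod_le_prod'
      intro u hu
      have hZ : (U u).card ^ 2 ≤ 2 ^ l := by
        have hu1 := (mem_sdiff.1 hu).1
        have hu2 := (mem_sdiff.1 hu).2
        rw [hW, mem_union] at hu1
        rw [hP, mem_union, not_or] at hu2
        exact (mem_filter.1 (hu1.resolve_left hu2.1)).2
      have g3 : (16 * (U u).card * 2 ^ a) ^ 2 ≤ (2 ^ l) ^ 2 := by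
        calc (16 * (U u).card * 2 ^ a) ^ 2 = (U u).card ^ 2 * 2 ^ (2 * a + 8) := by ring
          _ ≤ 2 ^ l * 2 ^ l :=
              Nat.mul_le_mul hZ (Nat.pow_le_pow_right (by norm_num) (by omega))
          _ = _ := (sq _).symm
      exact (Nat.pow_le_pow_iff_left (by norm_num)).1 g3
    have h8 : 𝓒.card * (2 ^ a) ^ (W \ P).card ≤
        (univ.filter fun z : Nd h → Vec l => Good z ∧ H z).card := by
      have hpos' : 0 < (2 ^ l) ^ (W \ P).card := by positivity
      refine Nat.le_of_mul_le_mul_right ?_ hpos'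
      calc 𝓒.card * (2 ^ a) ^ (W \ P).card * (2 ^ l) ^ (W \ P).card
          = (𝓒.card * (2 ^ l) ^ (W \ P).card) * (2 ^ a) ^ (W \ P).card := by ring
        _ ≤ ((univ.filter fun z : Nd h → Vec l => Good z ∧ H z).card *
            ∏ u ∈ W \ P, (16 * (U u).card)) * (2 ^ a) ^ (W \ P).card :=
            Nat.mul_le_mul_right _ ((Nat.mul_le_mul_right _ h1).trans h4)
        _ = (univ.filter fun z : Nd h → Vec l => Good z ∧ H z).card *
            ((∏ u ∈ W \ P, (16 * (U u).card)) * (2 ^ a) ^ (W \ P).card) := by ring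
        _ ≤ _ := Nat.mul_le_mul_left _ h7
    have h9 : (univ.filter fun z : Nd h → Vec l => Good z ∧ H z).card ≤
        ((univ.filter fun z : Nd h → Vec l => Good z).filter fun z =>
          κ ⊆ univ.image (key pos z)).card := by
      apply card_le_card
      intro z hz
      rw [mem_filter] at hz
      rw [mem_filter, mem_filter]
      refine ⟨⟨mem_univ _, hz.2.1⟩, fun i hi => ?_⟩
      rw [← e2, mem_inter, hch] at hi
      obtain ⟨⟨u, rfl⟩, hiD⟩ := hi
      rw [← hz.2.2 u (mem_filter.2 ⟨mem_univ _, hiD⟩)]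
      exact mem_image_of_mem _ (mem_univ _)
    calc 𝓒.card * 2 ^ (a * M)
        ≤ 𝓒.card * 2 ^ (a * ((W \ P).card + 2 * κ.card)) :=
          Nat.mul_le_mul_left _ (Nat.pow_le_pow_right (by norm_num)
            (Nat.mul_le_mul_left _ hWP))
      _ = (4 ^ a) ^ κ.card * (𝓒.card * (2 ^ a) ^ (W \ P).card) := by
          have e3 : 2 ^ (a * ((W \ P).card + 2 * κ.card)) =
              (2 ^ a) ^ (W \ P).card * (4 ^ a) ^ κ.card := by
            rw [show (4 : ℕ) = 2 ^ 2 by norm_num, ← pow_mul, ← pow_mul, ← pow_mul, ← pow_add]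
            congr 1; ring
          rw [e3]; ring
      _ ≤ _ := Nat.mul_le_mul_left _ (h8.trans h9)
  -- all classes of a node
  have hnode : ∀ v : Fin S, (univ.filter fun z : ↥F => c z = v).card * 2 ^ (a * M) ≤
      24 * (1 + 4 ^ a) * N := by
    intro v
    have h1 : (univ.filter fun z : ↥F => c z = v).card =
        ∑ κ ∈ (Dw v).powerset, (univ.filter fun z : ↥F => c z = v ∧ ch z ∩ Dw v = κ).card := by
      rw [card_eq_sum_card_fiberwise (f := fun z : ↥F => ch z ∩ Dw v)
        (t := (Dw v).powerset) (fun z _ => mem_coe.2 (mem_powerset.2 inter_subset_right))]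
      apply sum_congr rfl
      intro κ _
      rw [filter_filter]
    have h4 := moment (h := h) hpos (by omega : 4 ≤ l) (Dw v) (1 + 4 ^ a) (2 ^ (12 * a + 6))
      (2 ^ (2 * l - 12 * a - 14)) (Nat.le_add_right _ _) (by
        have g1 : 1 ≤ 4 ^ a := Nat.one_le_pow _ _ (by norm_num)
        calc (1 + 4 ^ a) ^ 6 ≤ (2 * 4 ^ a) ^ 6 := Nat.pow_le_pow_left (by omega) 6
          _ = 2 ^ (12 * a + 6) := by
              rw [show (4 : ℕ) = 2 ^ 2 by norm_num, ← pow_mul, mul_pow, ← pow_mul, ← pow_add]
              congr 1; ring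
          _ ≤ _ := Nat.le_add_left _ _) (by positivity) (by
        rw [← pow_add]; congr 1; omega) (hDc v)
    rw [h1, sum_mul]
    refine le_trans ?_ h4
    rw [← double _ (fun z => univ.image (key pos z)) (Dw v) (4 ^ a)]
    exact sum_le_sum fun κ _ => hclass v κ
  have h1 : F.card = (univ : Finset ↥F).card := by rw [card_univ, Fintype.card_coe]
  rw [h1, card_eq_sum_card_fiberwise (f := c) (t := univ) fun _ _ => mem_univ _, sum_mul]
  calc _ ≤ ∑ _v : Fin S, 24 * (1 + 4 ^ a) * N := sum_le_sum fun v _ => hnode v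
    _ = _ := by rw [sum_const, card_univ, Fintype.card_fin, smul_eq_mul]

end Pool.Agent.TH708.Tsp.W
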