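import Pool.Agent.H561R2.CF.Main
import Pool.Agent.TH708.Shr.Orth

/-!
# Programs in which few positions are read both before and after a node
-/

set_option autoImplicit false
set_option linter.unusedSectionVars false

namespace Pool.Agent.TH708.Tsp.W

open Finset
open Pool.Agent.H561R2.CF
open Pool.Agent.TH708.Shr (pow_le_four)

variable {n S : ℕ} {Γ : Type}

/-- Some walk from `u` to `v` reads the position `i`. -/
def Between (B : NBP n Γ S) (u v : Fin S) (i : Fin n) : Prop :=
  ∃ l, B.Walk u l v ∧ ∃ p ∈ l, i ∈ p.1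

/-- The positions which are read before and after the node. -/
def dup (B : NBP n Γ S) (v : Fin S) : Set (Fin n) :=
  {i | Between B B.start v i ∧ Between B v B.accept i}

theorem pow_four {a m : ℕ} (ha : 0 < a) (hm : m ≤ a) : (1 + a) ^ m ≤ 4 * a ^ m := by
  have h1 := pow_le_four a ha
  have hpos : 0 < a ^ (a - m) := by positivity
  refine Nat.le_of_mul_le_mul_right ?_ hpos
  calc (1 + a) ^ m * a ^ (a - m) ≤ (1 + a) ^ m * (1 + a) ^ (a - m) :=
        Nat.mul_le_mul_left _ (Nat.pow_le_pow_left (by omega) _)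
    _ = (1 + a) ^ a := by rw [← pow_add]; congr 1; omega
    _ ≤ 4 * a ^ a := h1
    _ = 4 * a ^ m * a ^ (a - m) := by rw [mul_assoc, ← pow_add]; congr 2; omega

open Classical in
/-- Sets of labels at several nodes. -/
theorem small_prod {h l : ℕ} (U : Nd h → Finset (Vec l)) (W : Finset (Nd h)) :
    (univ.filter fun z : Nd h → Vec l => Good z ∧ ∀ t ∈ W, z t ∈ U t).card * (2 ^ l) ^ W.card ≤
      (univ.filter fun z : Nd h → Vec l => Good z).card * ∏ t ∈ W, (16 * (U t).card) := by
  induction W using Finset.induction_on with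
  | empty => simp
  | @insert e W he ih =>
    have h3 : (univ.filter fun z : Nd h → Vec l =>
        Good z ∧ (∀ t ∈ W, z t ∈ U t) ∧ z e ∈ U e).card * 2 ^ l ≤
        16 * (U e).card * (univ.filter fun z : Nd h → Vec l =>
        Good z ∧ ∀ t ∈ W, z t ∈ U t).card := by
      convert resample (fun z : Nd h → Vec l => ∀ t ∈ W, z t ∈ U t) e (by
        intro z b hz t ht
        have hne : t ≠ e := by
          rintro rfl
          exact he ht
        rw [Function.update_of_ne hne]
        exact hz t ht) (U e)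
    have h4 : (univ.filter fun z : Nd h → Vec l => Good z ∧ ∀ t ∈ insert e W, z t ∈ U t) =
        univ.filter fun z : Nd h → Vec l => Good z ∧ (∀ t ∈ W, z t ∈ U t) ∧ z e ∈ U e := by
      ext z
      simp only [Finset.mem_filter, Finset.mem_univ, true_and, Finset.mem_insert,
        forall_eq_or_imp]
      tauto
    rw [h4, card_insert_of_notMem he, prod_insert he]
    generalize (univ.filter fun z : Nd h → Vec l =>
      Good z ∧ (∀ t ∈ W, z t ∈ U t) ∧ z e ∈ U e).card = x at h3 ⊢
    generalize (univ.filter fun z : Nd h → Vec l =>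
      Good z ∧ ∀ t ∈ W, z t ∈ U t).card = y at h3 ih
    calc x * (2 ^ l) ^ (W.card + 1) = x * 2 ^ l * (2 ^ l) ^ W.card := by ring
      _ ≤ 16 * (U e).card * y * (2 ^ l) ^ W.card := Nat.mul_le_mul_right _ h3
      _ = 16 * (U e).card * (y * (2 ^ l) ^ W.card) := by ring
      _ ≤ 16 * (U e).card * ((univ.filter fun z : Nd h → Vec l => Good z).card *
          ∏ t ∈ W, (16 * (U t).card)) := Nat.mul_le_mul_left _ ih
      _ = _ := by ring

open Classical in
/-- **The lower bound.** -/
theorem lower_bound {B : NBP n Γ S} {b h h₀ l a : ℕ} (hwd : B.Width b) (hb : b < 3 ^ h₀)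
    (hh : h₀ ≤ h) (ha : 4 ≤ a) (hal : 2 * a ≤ l) (hdup : ∀ v, (dup B v).ncard ≤ 2 ^ (l - a))
    (w : (Nd h → Vec l) → Fin n → Γ) (key : (Nd h → Vec l) → Nd h → Fin n)
    (h2 : ∀ z, Good z → ∀ u, ∃ w', (∀ i, i ≠ key z u → w z i = w' i) ∧ ¬B.Accepts w')
    (h3 : ∀ z z', Good z → Good z' → ∀ (A : Set (Fin n)) [DecidablePred (· ∈ A)],
      B.Accepts (fun i => if i ∈ A then w z i else w z' i) →
      ∃ z'', Good z'' ∧ ∀ u, (key z'' u ∈ A ∧ key z'' u = key z u) ∨
        (key z'' u ∉ A ∧ key z'' u = key z' u))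
    (h5 : ∀ z z' i, ((∃ u, key z u = i) ↔ ∃ u, key z' u = i) → w z i = w z' i)
    (h6 : ∀ z z' u u', key z u = key z' u' → u = u' ∧ z u = z' u') :
    (univ.filter fun z : Nd h → Vec l => Good z ∧ B.Accepts (w z)).card *
        2 ^ ((a - 4) * (h + 1 - h₀)) ≤
      4 * S * (univ.filter fun z : Nd h → Vec l => Good z).card := by
  set N := (univ.filter fun z : Nd h → Vec l => Good z).card with hN
  set F : Finset (Nd h → Vec l) := univ.filter fun z => Good z ∧ B.Accepts (w z) with hF
  have hFm : ∀ z : ↥F, Good z.1 ∧ B.Accepts (w z.1) := fun z => (mem_filter.1 z.2).2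
  -- the walks
  have hwalk' : ∀ z : ↥F, ∃ l, B.Walk B.start l B.accept ∧ ∀ p ∈ l, w z.1 ∈ p.2 :=
    fun z => (hFm z).2
  choose lw hwalk hl using hwalk'
  have hall : ∀ (z : ↥F) u, Rd (lw z) (key z.1 u) := by
    intro z u
    by_contra hcon
    obtain ⟨w', e1, e2⟩ := h2 z.1 (hFm z).1 u
    refine e2 ⟨lw z, hwalk z, fun p hp => ?_⟩
    obtain ⟨v, v', he⟩ := (hwalk z).exists_edge p hp
    refine B.reads _ _ _ _ he (w z.1) w' (fun i hi => ?_) (hl z p hp)
    refine e1 i ?_
    rintro rfl
    exact hcon ⟨p, hp, hi⟩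
  have hproc : ∀ z : ↥F, Process b fun t u => Rd ((lw z).take t) (key z.1 u) := by
    intro z
    refine ⟨fun u hu => ?_, ⟨(lw z).length, fun u => ?_⟩, fun t u hu => ?_,
      fun t s hs => ?_⟩
    · obtain ⟨p, hp, -⟩ := hu
      simp at hp
    · simp only [List.take_length]
      exact hall z u
    · obtain ⟨p, hp, hi⟩ := hu
      refine ⟨p, ?_, hi⟩
      rw [List.take_add_one]
      exact List.mem_append_left _ hp
    · have aux : ∀ x ∈ s, ∃ p, (lw z)[t]? = some p ∧ key z.1 x ∈ p.1 := by
        intro x hx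
        obtain ⟨b1, p, hp, hpx⟩ := hs x hx
        rw [List.take_add_one, List.mem_append] at hp
        rcases hp with hp | hp
        · exact absurd ⟨p, hp, hpx⟩ b1
        · rw [Option.mem_toList] at hp
          exact ⟨p, hp, hpx⟩
      rcases s.eq_empty_or_nonempty with rfl | ⟨x₀, hx₀⟩
      · simp
      · obtain ⟨p, hp, -⟩ := aux x₀ hx₀
        obtain ⟨v, v', he⟩ := (hwalk z).exists_edge p (List.mem_of_getElem? hp)
        refine le_trans ?_ (hwd _ _ _ _ he)
        refine Finset.card_le_card_of_injOn (key z.1) (fun x hx => ?_)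
          fun x _ y _ hxy => (h6 _ _ _ _ hxy).1
        obtain ⟨q, hq, hqx⟩ := aux x hx
        rw [hp] at hq
        rw [Option.some.inj hq]
        exact hqx
  choose t L hL1 hL2 using fun z => (Process.exists_crossing hb h hh _ (hproc z))
  choose c hc1 hc2 using fun z => (hwalk z).split (t z)
  -- what is read before and after
  have hbef : ∀ (z : ↥F) i, Rd ((lw z).take (t z)) i → Between B B.start (c z) i :=
    fun z i hi => ⟨_, hc1 z, hi⟩
  have haft : ∀ (z : ↥F) i, Rd ((lw z).drop (t z)) i → Between B (c z) B.accept i :=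
    fun z i hi => ⟨_, hc2 z, hi⟩
  have hsplit : ∀ (z : ↥F) u, ¬ Rd ((lw z).take (t z)) (key z.1 u) →
      Rd ((lw z).drop (t z)) (key z.1 u) := by
    intro z u hu
    obtain ⟨p, hp, hpi⟩ := hall z u
    rw [← List.take_append_drop (t z) (lw z), List.mem_append] at hp
    rcases hp with hp | hp
    · exact absurd ⟨p, hp, hpi⟩ hu
    · exact ⟨p, hp, hpi⟩
  let Dw : Fin S → Finset (Fin n) := fun v => univ.filter fun i => i ∈ dup B v
  have hDw : ∀ v i, i ∈ Dw v ↔ i ∈ dup B v := fun v i => by
    simp only [Dw, mem_filter, mem_univ, true_and]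
  have hDc : ∀ v, (Dw v).card ≤ 2 ^ (l - a) := by
    intro v
    have h1 : ((Dw v : Finset (Fin n)) : Set (Fin n)) = dup B v := by
      ext i; rw [mem_coe, hDw]
    rw [← Set.ncard_coe_finset, h1]
    exact hdup v
  let ch : ↥F → Finset (Fin n) := fun z => univ.image (key z.1)
  have hch : ∀ (z : ↥F) i, i ∈ ch z ↔ ∃ u, key z.1 u = i := fun z i => by
    simp only [ch, mem_image, mem_univ, true_and]
  -- mixtures
  have mix : ∀ z z' : ↥F, c z = c z' → ch z ∩ Dw (c z) = ch z' ∩ Dw (c z) →
      ∃ z'' : Nd h → Vec l, Good z'' ∧ ∀ u,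
        (Between B B.start (c z) (key z'' u) ∧ key z'' u = key z.1 u) ∨
        (¬ Between B B.start (c z) (key z'' u) ∧ key z'' u = key z'.1 u) := by
    intro z z' hcc hD
    have hwk : B.Walk B.start ((lw z).take (t z) ++ (lw z').drop (t z')) B.accept :=
      (hc1 z).append (hcc ▸ hc2 z')
    obtain ⟨z'', e1, e2⟩ := h3 z.1 z'.1 (hFm z).1 (hFm z').1
      {i | Between B B.start (c z) i} (by
      refine ⟨_, hwk, fun p hp => ?_⟩
      obtain ⟨v, v', he⟩ := hwk.exists_edge p hp
      rw [List.mem_append] at hp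
      rcases hp with hp | hp
      · refine B.reads _ _ _ _ he (w z.1) _ (fun i hi => ?_) (hl z p (List.mem_of_mem_take hp))
        have hmem : Between B B.start (c z) i := hbef z i ⟨p, hp, hi⟩
        exact (if_pos hmem).symm
      · refine B.reads _ _ _ _ he (w z'.1) _ (fun i hi => ?_) (hl z' p (List.mem_of_mem_drop hp))
        have h1 : Between B (c z') B.accept i := haft z' i ⟨p, hp, hi⟩
        by_cases hA : Between B B.start (c z) i
        · have h4 : i ∈ Dw (c z) := (hDw _ _).2 ⟨hA, by rw [hcc]; exact h1⟩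
          have h7 : i ∈ ch z ∩ Dw (c z) ↔ i ∈ ch z' ∩ Dw (c z) := by rw [hD]
          rw [mem_inter, mem_inter, hch, hch] at h7
          simp only [h4, and_true] at h7
          exact ((if_pos hA).trans (h5 z.1 z'.1 i h7)).symm
        · exact (if_neg hA).symm)
    exact ⟨z'', e1, e2⟩
  have hsame : ∀ z z' : ↥F, c z = c z' → ch z ∩ Dw (c z) = ch z' ∩ Dw (c z) → ∀ u,
      (Between B B.start (c z) (key z.1 u) ↔ Between B B.start (c z) (key z'.1 u)) := by
    intro z z' hcc hD u
    constructor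
    · intro h1
      obtain ⟨q, _, hq⟩ := mix z' z hcc.symm (by rw [← hcc]; exact hD.symm)
      rw [← hcc] at hq
      rcases hq u with h4 | h4
      · rw [← h4.2]; exact h4.1
      · exact absurd h1 (by rw [← h4.2]; exact h4.1)
    · intro h1
      obtain ⟨q, _, hq⟩ := mix z z' hcc hD
      rcases hq u with h4 | h4
      · rw [← h4.2]; exact h4.1
      · exact absurd h1 (by rw [← h4.2]; exact h4.1)
  set M := h + 1 - h₀ with hM
  -- the size of a class
  have hclass : ∀ (v : Fin S) (κ : Finset (Fin n)),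
      (univ.filter fun z : ↥F => c z = v ∧ ch z ∩ Dw v = κ).card *
        (2 ^ ((a - 4) * M) * (2 ^ (l - a)) ^ κ.card) ≤ N := by
    intro v κ
    set 𝓒 : Finset ↥F := univ.filter fun z : ↥F => c z = v ∧ ch z ∩ Dw v = κ with h𝓒
    rcases 𝓒.eq_empty_or_nonempty with h0 | ⟨z₀, hz₀⟩
    · rw [h0, card_empty, zero_mul]; exact Nat.zero_le _
    have hmem : ∀ z ∈ 𝓒, c z = v ∧ ch z ∩ Dw v = κ := by
      intro z hz
      rw [h𝓒, mem_filter] at hz
      exact hz.2
    obtain ⟨e1, e2⟩ := hmem z₀ hz₀
    have hI : ∀ z ∈ 𝓒, ∀ u, (Between B B.start v (key z.1 u) ↔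
        Between B B.start v (key z₀.1 u)) := by
      intro z hz u
      obtain ⟨g1, g2⟩ := hmem z hz
      have := hsame z z₀ (g1.trans e1.symm) (by rw [g1]; exact g2.trans e2.symm) u
      rw [g1] at this
      exact this
    let R : Finset (Nd h) := univ.filter fun u => key z₀.1 u ∈ Dw v
    have hRκ : κ.card = R.card := by
      have h1 : κ = R.image fun u => key z₀.1 u := by
        rw [← e2]
        ext i
        rw [mem_inter, hch, mem_image]
        constructor
        · rintro ⟨⟨u, rfl⟩, h1⟩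
          exact ⟨u, mem_filter.2 ⟨mem_univ _, h1⟩, rfl⟩
        · rintro ⟨u, hu, rfl⟩
          exact ⟨⟨u, rfl⟩, (mem_filter.1 hu).2⟩
      rw [h1, card_image_of_injective]
      intro u u' huu
      exact (h6 _ _ _ _ huu).1
    let U : Nd h → Finset (Vec l) := fun u => 𝓒.image fun z => z.1 u
    have hUR : ∀ u ∈ R, (U u).card ≤ 1 := by
      intro u hu
      rw [card_le_one]
      have key' : ∀ x ∈ U u, x = z₀.1 u := by
        intro x hx
        simp only [U, mem_image] at hx
        obtain ⟨z, hz, rfl⟩ := hx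
        obtain ⟨g1, g2⟩ := hmem z hz
        have h1 : key z₀.1 u ∈ ch z₀ ∩ Dw v :=
          mem_inter.2 ⟨(hch _ _).2 ⟨u, rfl⟩, (mem_filter.1 hu).2⟩
        rw [e2, ← g2, mem_inter, hch] at h1
        obtain ⟨⟨u', hu'⟩, _⟩ := h1
        obtain ⟨rfl, h4⟩ := h6 _ _ _ _ hu'
        exact h4
      intro x hx y hy
      rw [key' x hx, key' y hy]
    let Z : Finset (Nd h) := univ.filter fun u => (U u).card ^ 2 ≤ 2 ^ l
    set W := R ∪ Z with hW
    -- the crossing edges are hit
    have hit : ∀ e ∈ L z₀, e.1 ∈ W ∨ e.2 ∈ W := by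
      intro e he
      by_contra hcon
      rw [not_or, hW, mem_union, mem_union, not_or, not_or] at hcon
      obtain ⟨⟨hpR, hpZ⟩, hcR, hcZ⟩ := hcon
      obtain ⟨hadj, hin, hout⟩ := (hL2 z₀).1 e he
      have hp : Between B B.start v (key z₀.1 e.1) := by
        have := hbef z₀ _ hin
        rw [e1] at this
        exact this
      have hc : ¬ Between B B.start v (key z₀.1 e.2) := by
        intro h1
        apply hcR
        have h4 := haft z₀ _ (hsplit z₀ e.2 hout)
        rw [e1] at h4
        exact mem_filter.2 ⟨mem_univ _, (hDw _ _).2 ⟨h1, h4⟩⟩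
      have hall' : ∀ x ∈ U e.1, ∀ y ∈ U e.2, x ⬝ᵥ y = 0 := by
        intro x hx y hy
        simp only [U, mem_image] at hx hy
        obtain ⟨z, hz, rfl⟩ := hx
        obtain ⟨z', hz', rfl⟩ := hy
        obtain ⟨g1, g2⟩ := hmem z hz
        obtain ⟨g1', g2'⟩ := hmem z' hz'
        obtain ⟨q, hq, hqt⟩ := mix z z' (g1.trans g1'.symm) (by rw [g1]; exact g2.trans g2'.symm)
        rw [g1] at hqt
        have k1 : q e.1 = z.1 e.1 := by
          rcases hqt e.1 with h1 | h1
          · exact (h6 _ _ _ _ h1.2).2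
          · exact absurd ((hI z' hz' e.1).2 hp) (by rw [← h1.2]; exact h1.1)
        have k2 : q e.2 = z'.1 e.2 := by
          rcases hqt e.2 with h1 | h1
          · exact absurd ((hI z hz e.2).1 (by rw [← h1.2]; exact h1.1)) hc
          · exact (h6 _ _ _ _ h1.2).2
        rw [← k1, ← k2]
        rcases hadj with hadj | hadj
        · exact hq _ _ hadj
        · rw [dotProduct_comm]
          exact hq _ _ hadj
      have h1 := orth_card (U e.1) (U e.2) hall'
      have h7 : 2 ^ l < (U e.1).card ^ 2 := by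
        by_contra h'
        exact hpZ (mem_filter.2 ⟨mem_univ _, not_lt.1 h'⟩)
      have h8 : 2 ^ l < (U e.2).card ^ 2 := by
        by_contra h'
        exact hcZ (mem_filter.2 ⟨mem_univ _, not_lt.1 h'⟩)
      have h9 := Nat.mul_lt_mul'' h7 h8
      have h10 : ((U e.1).card * (U e.2).card) ^ 2 ≤ (2 ^ l) ^ 2 := Nat.pow_le_pow_left h1 2
      rw [mul_pow, sq (2 ^ l)] at h10
      exact absurd h10 (not_le.2 h9)
    have hMW : M ≤ W.card := by
      let f : Nd h × Nd h → Nd h := fun e => if e.1 ∈ W then e.1 else e.2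
      have hf : ∀ e ∈ L z₀, f e ∈ W := by
        intro e he
        by_cases h1 : e.1 ∈ W
        · simp only [f, if_pos h1]; exact h1
        · simp only [f, if_neg h1]
          exact (hit e he).resolve_left h1
      have hinj : ∀ e ∈ L z₀, ∀ e' ∈ L z₀, f e = f e' → e = e' := by
        intro e he e' he' hee
        have i1 := List.inj_on_of_nodup_map (hL2 z₀).2.1
        have i2 := List.inj_on_of_nodup_map (hL2 z₀).2.2
        simp only [f] at hee
        split_ifs at hee with h1 h4 h4
        · exact i1 he he' hee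
        · exact absurd (hee ▸ ((hL2 z₀).1 e he).2.1) ((hL2 z₀).1 e' he').2.2
        · exact absurd (hee ▸ ((hL2 z₀).1 e' he').2.1) ((hL2 z₀).1 e he).2.2
        · exact i2 he he' hee
      have hnd : ((L z₀).map f).Nodup :=
        ((hL2 z₀).2.1.of_map).map_on fun e he e' he' => hinj e he e' he'
      have h1 : ((L z₀).map f).toFinset ⊆ W := by
        intro x hx
        rw [List.mem_toFinset, List.mem_map] at hx
        obtain ⟨e, he, rfl⟩ := hx
        exact hf e he
      have h4 := card_le_card h1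
      rw [List.toFinset_card_of_nodup hnd, List.length_map] at h4
      have h7 := hL1 z₀
      omega
    -- counting
    have h1 : 𝓒.card ≤ (univ.filter fun z : Nd h → Vec l => Good z ∧
        ∀ u ∈ W, z u ∈ U u).card := by
      apply card_le_card_of_injOn (fun z : ↥F => z.1)
      · intro z hz
        rw [mem_coe] at hz
        rw [mem_coe, mem_filter]
        exact ⟨mem_univ _, (hFm z).1, fun u _ => mem_image_of_mem _ hz⟩
      · intro z _ z' _ hzz
        exact Subtype.ext hzz
    have h4 := small_prod U W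
    have h7 : (∏ u ∈ W, (16 * (U u).card)) * ((2 ^ (a - 4)) ^ W.card *
        (2 ^ (l - a)) ^ R.card) ≤ (2 ^ l) ^ W.card := by
      have g1 : (2 ^ (l - a)) ^ R.card = ∏ u ∈ W, (if u ∈ R then 2 ^ (l - a) else 1) := by
        rw [prod_ite_mem, hW, union_inter_cancel_left, prod_const]
      rw [g1, ← prod_const (s := W) (2 ^ (a - 4)), ← prod_const (s := W) (2 ^ l),
        ← prod_mul_distrib, ← prod_mul_distrib]
      apply prod_le_prod'
      intro u hu
      have g2 : 16 * 2 ^ (a - 4) = 2 ^ a := by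
        rw [show (16 : ℕ) = 2 ^ 4 by norm_num, ← pow_add]; congr 1; omega
      by_cases hR : u ∈ R
      · rw [if_pos hR]
        calc 16 * (U u).card * (2 ^ (a - 4) * 2 ^ (l - a))
            = (U u).card * ((16 * 2 ^ (a - 4)) * 2 ^ (l - a)) := by ring
          _ ≤ 1 * ((16 * 2 ^ (a - 4)) * 2 ^ (l - a)) := Nat.mul_le_mul_right _ (hUR u hR)
          _ = 2 ^ l := by rw [one_mul, g2, ← pow_add]; congr 1; omega
      · rw [if_neg hR, mul_one]
        have hZ : (U u).card ^ 2 ≤ 2 ^ l := by
          rw [hW, mem_union] at hu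
          exact (mem_filter.1 (hu.resolve_left hR)).2
        have g3 : ((U u).card * 2 ^ a) ^ 2 ≤ (2 ^ l) ^ 2 := by
          calc ((U u).card * 2 ^ a) ^ 2 = (U u).card ^ 2 * 2 ^ (2 * a) := by
                rw [mul_pow, ← pow_mul]; congr 2; ring
            _ ≤ 2 ^ l * 2 ^ l := Nat.mul_le_mul hZ (Nat.pow_le_pow_right (by norm_num) hal)
            _ = _ := (sq _).symm
        calc 16 * (U u).card * 2 ^ (a - 4) = (U u).card * (16 * 2 ^ (a - 4)) := by ring
          _ = (U u).card * 2 ^ a := by rw [g2]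
          _ ≤ 2 ^ l := (Nat.pow_le_pow_iff_left (by norm_num)).1 g3
    have hpos : 0 < (2 ^ l) ^ W.card := by positivity
    refine Nat.le_of_mul_le_mul_right ?_ hpos
    calc 𝓒.card * (2 ^ ((a - 4) * M) * (2 ^ (l - a)) ^ κ.card) * (2 ^ l) ^ W.card
        ≤ 𝓒.card * ((2 ^ (a - 4)) ^ W.card * (2 ^ (l - a)) ^ R.card) * (2 ^ l) ^ W.card := by
          refine Nat.mul_le_mul_right _ (Nat.mul_le_mul_left _ ?_)
          rw [hRκ, pow_mul]
          exact Nat.mul_le_mul_right _ (Nat.pow_le_pow_right (by positivity) hMW)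
      _ = (𝓒.card * (2 ^ l) ^ W.card) * ((2 ^ (a - 4)) ^ W.card * (2 ^ (l - a)) ^ R.card) := by
          ring
      _ ≤ (N * ∏ u ∈ W, (16 * (U u).card)) * ((2 ^ (a - 4)) ^ W.card *
          (2 ^ (l - a)) ^ R.card) :=
          Nat.mul_le_mul_right _ ((Nat.mul_le_mul_right _ h1).trans h4)
      _ = N * ((∏ u ∈ W, (16 * (U u).card)) * ((2 ^ (a - 4)) ^ W.card *
          (2 ^ (l - a)) ^ R.card)) := by ring
      _ ≤ N * (2 ^ l) ^ W.card := Nat.mul_le_mul_left _ h7
  -- all classes of a node
  have hnode : ∀ v : Fin S, (univ.filter fun z : ↥F => c z = v).card * 2 ^ ((a - 4) * M) ≤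
      4 * N := by
    intro v
    have hpos : 0 < (2 ^ (l - a)) ^ (Dw v).card := by positivity
    refine Nat.le_of_mul_le_mul_right ?_ hpos
    have h1 : (univ.filter fun z : ↥F => c z = v).card =
        ∑ κ ∈ (Dw v).powerset, (univ.filter fun z : ↥F => c z = v ∧ ch z ∩ Dw v = κ).card := by
      rw [card_eq_sum_card_fiberwise (f := fun z : ↥F => ch z ∩ Dw v)
        (t := (Dw v).powerset) (fun z _ => mem_coe.2 (mem_powerset.2 inter_subset_right))]
      apply sum_congr rfl
      intro κ _
      rw [filter_filter]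
    rw [h1]
    calc (∑ κ ∈ (Dw v).powerset, (univ.filter fun z : ↥F => c z = v ∧
          ch z ∩ Dw v = κ).card) * 2 ^ ((a - 4) * M) * (2 ^ (l - a)) ^ (Dw v).card
        = ∑ κ ∈ (Dw v).powerset, (univ.filter fun z : ↥F => c z = v ∧
          ch z ∩ Dw v = κ).card * 2 ^ ((a - 4) * M) * (2 ^ (l - a)) ^ (Dw v).card := by
          rw [sum_mul, sum_mul]
      _ ≤ ∑ κ ∈ (Dw v).powerset, N * (1 ^ κ.card *
            (2 ^ (l - a)) ^ ((Dw v).card - κ.card)) := by
          apply sum_le_sum
          intro κ hκ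
          have h4 : κ.card ≤ (Dw v).card := card_le_card (mem_powerset.1 hκ)
          have h7 : (2 ^ (l - a)) ^ (Dw v).card =
              (2 ^ (l - a)) ^ κ.card * (2 ^ (l - a)) ^ ((Dw v).card - κ.card) := by
            rw [← pow_add]; congr 1; omega
          rw [h7, one_pow, one_mul]
          calc _ = (univ.filter fun z : ↥F => c z = v ∧ ch z ∩ Dw v = κ).card *
                (2 ^ ((a - 4) * M) * (2 ^ (l - a)) ^ κ.card) *
                (2 ^ (l - a)) ^ ((Dw v).card - κ.card) := by ring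
            _ ≤ _ := Nat.mul_le_mul_right _ (hclass v κ)
      _ = N * (1 + 2 ^ (l - a)) ^ (Dw v).card := by
          rw [← mul_sum, sum_pow_mul_eq_add_pow]
      _ ≤ N * (4 * (2 ^ (l - a)) ^ (Dw v).card) :=
          Nat.mul_le_mul_left _ (pow_four (by positivity) (hDc v))
      _ = _ := by ring
  have h1 : F.card = (univ : Finset ↥F).card := by rw [card_univ, Fintype.card_coe]
  rw [h1, card_eq_sum_card_fiberwise (f := c) (t := univ) fun _ _ => mem_univ _, sum_mul]
  calc _ ≤ ∑ _v : Fin S, 4 * N := sum_le_sum fun v _ => hnode v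
    _ = _ := by rw [sum_const, card_univ, Fintype.card_fin, smul_eq_mul]; ring

end Pool.Agent.TH708.Tsp.W
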